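import Pool.Agent.Run7.h704.Final

/-! A model of ZFC in which the continuum hypothesis holds and there is an Aronszajn tree satisfying
CAT. -/

open Pool.Agent.H42.ZF Run7.h704.TreeDefs

theorem Pool.Agent.Results.MP_ec4214_lc.CatWithCH.result :
    ∃ (M : Type 1) (E : M → M → Prop), ZFC E ∧ CH E ∧ ∃ T, Aronszajn E T ∧ CAT E T :=
  Run7.h704Mod.main
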